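import Pool.Agent.Helper43.AX.St

/-!
# Project AX (MP_b3ce06_al), module R1: `d^(p-1) ∈ U` for `d = 1 - y`
-/

set_option autoImplicit false

namespace Pool.Agent.Helper76.AX

open Pool.Agent.Helper43.AX Pool.Agent.Helper43.GD

theorem hR1 (hP1 : Pool.Agent.Helper43.GD.StP1) (hP2 : Pool.Agent.Helper43.GD.StP2)
    (hCMB : Pool.Agent.Helper43.GD.StCMB) : StR1 := by
  intro p L A _ _ x Q f y d hy hgn hd
  have hp := f.pr
  have hp5 := f.five
  have hfact : Fact p.Prime := ⟨hp⟩
  have hnt : Nontrivial L := by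
    by_contra hcon
    rw [not_nontrivial_iff_subsingleton] at hcon
    have h1 : Nat.card L = 1 := Nat.card_unique
    rw [f.card] at h1
    have h2 : 1 < p ^ p := Nat.one_lt_pow hp.ne_zero hp.one_lt
    omega
  have hch : CharP L p := ringChar.of_eq (CharP.ringChar_of_prime_eq_zero hp f.char)
  have hdy : 1 - (y : L) = d := hd.symm
  -- powers
  have hdp : 1 - ((y ^ p : Lˣ) : L) = ((d ^ p : Lˣ) : L) := by
    rw [Units.val_pow_eq_pow_val, Units.val_pow_eq_pow_val, ← hdy, sub_pow_char, one_pow]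
  have hfy : y ^ (p ^ p) = y := by
    apply Units.ext
    rw [Units.val_pow_eq_pow_val]
    exact f.frob y
  have hfd : d ^ (p ^ p) = d := by
    apply Units.ext
    rw [Units.val_pow_eq_pow_val]
    exact f.frob d
  have hyp : (y ^ p) ^ (p ^ (p - 1)) = y := by
    rw [← pow_mul, ← pow_succ', Nat.sub_add_cancel hp.one_le]
    exact hfy
  -- the two forms of P2
  have hA : ∀ u : Lˣ, Q.S u y → Q.S (d * u)⁻¹ y := by
    intro u hu
    refine (hP2 L A Q u y (d * u)⁻¹ hy ?_).1 hu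
    rw [hdy, ← Units.val_mul, ← Units.val_mul, inv_mul_cancel, Units.val_one]
  have hB : ∀ u : Lˣ, Q.S u (y ^ p) → Q.S (d ^ p * u)⁻¹ (y ^ p) := by
    intro u hu
    refine (hP2 L A Q u (y ^ p) (d ^ p * u)⁻¹ (Q.U.pow_mem hy p) ?_).1 hu
    rw [hdp, ← Units.val_mul, ← Units.val_mul, inv_mul_cancel, Units.val_one]
  have h0 : Q.S d⁻¹ y := by
    refine hP1 L A Q d⁻¹ y (-1) hy Q.neg ?_
    have h1 : ((y : L) - 1) = -(d : L) := by
      rw [← hdy]
      ring
    rw [h1, neg_mul, Units.mul_inv, Units.val_neg, Units.val_one]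
  have step : ∀ u : Lˣ, Q.S u y → Q.S (d ^ (p - 1) * u) y := by
    intro u hu
    have h1 := hB u (Q.S_pow hu p)
    have h2 := Q.S_pow h1 (p ^ (p - 1))
    rw [hyp] at h2
    have h3 := hA _ h2
    have e : (d * (d ^ p * u)⁻¹)⁻¹ = d ^ (p - 1) * u := by
      have hpp : d ^ p = d ^ (p - 1) * d := by
        rw [← pow_succ, Nat.sub_add_cancel hp.one_le]
      rw [hpp, mul_inv, inv_inv, mul_comm (d ^ (p - 1)) d, mul_assoc, inv_mul_cancel_left]
    rwa [e] at h3
  have hj : ∀ j : ℕ, Q.S (d ^ ((p - 1) * j) * d⁻¹) y := by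
    intro j
    induction j with
    | zero =>
      rw [mul_zero, pow_zero, one_mul]
      exact h0
    | succ j ih =>
      have h1 := step _ ih
      rwa [← mul_assoc, ← pow_add, show p - 1 + (p - 1) * j = (p - 1) * (j + 1) by ring] at h1
  have hk : ∀ j : ℕ, Q.S (d ^ ((p - 1) * j))⁻¹ y := by
    intro j
    have h1 := hA _ (hj j)
    have e : d * (d ^ ((p - 1) * j) * d⁻¹) = d ^ ((p - 1) * j) := by
      rw [mul_comm (d ^ ((p - 1) * j)), ← mul_assoc, mul_inv_cancel, one_mul]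
    rwa [e] at h1
  have hinv : Q.S (d ^ (p - 1))⁻¹ y := by
    have h1 := hk 1
    rwa [mul_one] at h1
  have hpos : Q.S (d ^ (p - 1)) y := by
    have h1 := hk (p ^ p - 2)
    have h2 : 2 ≤ p ^ p := by
      have : 1 < p ^ p := Nat.one_lt_pow hp.ne_zero hp.one_lt
      omega
    have h3 : d ^ (p ^ p - 2) = d⁻¹ := by
      have h4 : d ^ (p ^ p - 2) * d * d = d := by
        rw [← pow_succ, ← pow_succ, show p ^ p - 2 + 1 + 1 = p ^ p by omega]
        exact hfd
      have h5 : d ^ (p ^ p - 2) * d = 1 := by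
        have := mul_eq_right.1 h4
        exact this
      exact eq_inv_of_mul_eq_one_left h5
    rw [mul_comm (p - 1), pow_mul, h3, inv_pow, inv_inv] at h1
    exact h1
  refine hCMB L A Q (d ^ (p - 1)) y y hpos hinv ?_ hgn
  rw [hdy]
  exact d.isUnit.mul d.isUnit

end Pool.Agent.Helper76.AX
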